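import Mathlib

namespace Pool.Agent.H.MP_3562eb_co

open Finset

theorem ex (n₀ : ℕ) : ∃ (p : ℕ) (A : Finset (ZMod p)) (F : Finset (ZMod p × ZMod p)) (d : ℕ),
    p.Prime ∧ n₀ ≤ A.card ∧ (A.card : ℝ) < (1 - 1 / 20) * (p : ℝ) / 2 ∧ F ⊆ A ×ˢ A ∧
    (∀ x, (F.filter fun q => q.1 = x).card ≤ d) ∧ (∀ x, (F.filter fun q => q.2 = x).card ≤ d) ∧
    ∀ B ⊆ A, ((((A ×ˢ B) \ F).image fun q => q.1 + q.2).card : ℤ) ≤ 2 * A.card - 2 * d - 2 := by
  obtain ⟨p, hp, hn, hm⟩ := Nat.exists_prime_gt_modEq_one (13 * (n₀ + 14) + 1)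
    (show 13 ≠ 0 by omega)
  obtain ⟨m, rfl⟩ : ∃ m, p = 13 * m + 1 := ⟨p / 13, by unfold Nat.ModEq at hm; omega⟩
  have inj := CharP.natCast_injOn_Iio (ZMod (13 * m + 1)) (13 * m + 1)
  have ci : ∀ X : Finset ℕ, (∀ x ∈ X, x < 13 * m + 1) →
      (X.image (Nat.cast : ℕ → ZMod (13 * m + 1))).card = X.card := fun X h =>
    card_image_of_injOn (inj.mono h)
  let A : Finset (ZMod (13 * m + 1)) := (Ico 0 (3 * m) ∪ Ico (4 * m) (7 * m)).image Nat.cast
  let S : Finset (ZMod (13 * m + 1)) := (Ico 0 m ∪ Ico (5 * m) (9 * m)).image Nat.cast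
  have cA : A.card = 6 * m := by
    rw [ci _ (by simp only [mem_union, mem_Ico]; omega), card_union_of_disjoint
      (by simp only [disjoint_left, mem_Ico]; omega)]
    simp only [Nat.card_Ico]
    omega
  have cS : S.card ≤ 5 * m := card_image_le.trans ((card_union_le _ _).trans (by
    simp only [Nat.card_Ico]; omega))
  have key : ∀ x ∈ A, (A.filter fun y => x + y ∉ S).card ≤ 3 * m + 6 := by
    intro x hx
    obtain ⟨a, ha, rfl⟩ := mem_image.1 hx
    simp only [mem_union, mem_Ico] at ha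
    let T := ((Ico 0 (m - a) ∪ Ico (5 * m - a) (min (9 * m - a) (3 * m))) ∪
      Ico (max (5 * m - a) (4 * m)) (min (9 * m - a) (7 * m))) ∪ Ico (13 * m + 1 - a) (7 * m)
    have c1 : 3 * m ≤ T.card + 6 := by
      rw [card_union_of_disjoint (by simp only [disjoint_left, mem_union, mem_Ico]; omega),
        card_union_of_disjoint (by simp only [disjoint_left, mem_union, mem_Ico]; omega),
        card_union_of_disjoint (by simp only [disjoint_left, mem_Ico]; omega)]
      simp only [Nat.card_Ico]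
      omega
    have c2 : T.image Nat.cast ⊆ A.filter fun y => (a : ZMod (13 * m + 1)) + y ∈ S := by
      intro y hy
      obtain ⟨b, hb, rfl⟩ := mem_image.1 hy
      simp only [T, mem_union, mem_Ico] at hb
      refine mem_filter.2 ⟨mem_image_of_mem _ (by simp only [mem_union, mem_Ico]; omega),
        mem_image.2 ⟨(a + b) % (13 * m + 1), ?_, by simp⟩⟩
      simp only [mem_union, mem_Ico]
      by_cases g : a + b < 13 * m + 1
      · rw [Nat.mod_eq_of_lt g]; omega
      · rw [Nat.mod_eq_sub_mod (by omega), Nat.mod_eq_of_lt (by omega)]; omega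
    have c3 := card_le_card c2
    rw [ci _ (by simp only [T, mem_union, mem_Ico]; omega)] at c3
    have := card_filter_add_card_filter_not (s := A) fun y => (a : ZMod (13 * m + 1)) + y ∈ S
    omega
  refine ⟨_, A, (A ×ˢ A).filter fun q => q.1 + q.2 ∉ S, 3 * m + 6, hp, by omega, ?_,
    filter_subset _ _, fun x => ?_, fun x => ?_, fun B hB => ?_⟩
  · rw [cA]; push_cast; linarith [Nat.cast_nonneg (α := ℝ) m]
  · by_cases hx : x ∈ A
    · refine le_trans (card_le_card_of_injOn Prod.snd ?_ ?_) (key x hx)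
      · rintro ⟨u, v⟩ h
        simp only [coe_filter, mem_filter, mem_product, Set.mem_ofPred_eq] at h ⊢
        exact ⟨h.1.1.2, h.2 ▸ h.1.2⟩
      · rintro ⟨u, v⟩ h ⟨u', v'⟩ h' e
        exact Prod.ext ((mem_filter.1 h).2.trans (mem_filter.1 h').2.symm) e
    · rw [filter_eq_empty_iff.2 ?_]
      · simp
      · rintro q h rfl
        exact hx (mem_product.1 (mem_filter.1 h).1).1
  · by_cases hx : x ∈ A
    · refine le_trans (card_le_card_of_injOn Prod.fst ?_ ?_) (key x hx)
      · rintro ⟨u, v⟩ h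
        simp only [coe_filter, mem_filter, mem_product, Set.mem_ofPred_eq] at h ⊢
        exact ⟨h.1.1.1, add_comm u x ▸ h.2 ▸ h.1.2⟩
      · rintro ⟨u, v⟩ h ⟨u', v'⟩ h' e
        exact Prod.ext e ((mem_filter.1 h).2.trans (mem_filter.1 h').2.symm)
    · rw [filter_eq_empty_iff.2 ?_]
      · simp
      · rintro q h rfl
        exact hx (mem_product.1 (mem_filter.1 h).1).2
  · have : (((A ×ˢ B) \ (A ×ˢ A).filter fun q => q.1 + q.2 ∉ S).image fun q => q.1 + q.2) ⊆ S := by
      intro x hx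
      simp only [mem_image, mem_sdiff, mem_filter, mem_product] at hx
      obtain ⟨q, ⟨h, g⟩, rfl⟩ := hx
      exact by_contra fun n => g ⟨⟨h.1, hB h.2⟩, n⟩
    have := card_le_card this
    omega

end Pool.Agent.H.MP_3562eb_co
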